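import Mathlib

/-!
# Project QT of helper23: (CMB), the combinatorial part in abstract form
-/

set_option autoImplicit false

namespace Pool.Agent.J4H3.QT

open Filter

variable {X : Type*} {n : ℕ} (x : Fin n → Equiv.Perm X)

/-- the product of the letters -/
def wl (c : List (Fin n)) : Equiv.Perm X := (c.map x).prod

lemma wl_nil : wl x [] = 1 := rfl

lemma wl_cons (a : Fin n) (c : List (Fin n)) : wl x (a :: c) = x a * wl x c := by
  simp [wl]

lemma wl_append (c c' : List (Fin n)) : wl x (c ++ c') = wl x c * wl x c' := by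
  simp [wl]

/-- distance at least 2 -/
def Far (a b : Fin n) : Prop := (a : ℕ) + 2 ≤ b ∨ (b : ℕ) + 2 ≤ a

/-- distance 1 -/
def Adj (a b : Fin n) : Prop := (b : ℕ) = a + 1 ∨ (a : ℕ) = b + 1

lemma Far.symm {a b : Fin n} (h : Far a b) : Far b a := Or.symm h

lemma Adj.symm {a b : Fin n} (h : Adj a b) : Adj b a := Or.symm h

lemma comm_list (hcom : ∀ a b, Far a b → Commute (x a) (x b)) (a : Fin n) (l : List (Fin n))
    (h : ∀ b ∈ l, Far a b) : Commute (x a) (wl x l) := by
  induction l with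
  | nil => rw [wl_nil]; exact Commute.one_right _
  | cons b l ih =>
    rw [wl_cons]
    exact (hcom a b (h b List.mem_cons_self)).mul_right (ih fun b' hb' => h b' (List.mem_cons_of_mem _ hb'))

lemma split_list (hcom : ∀ a b, Far a b → Commute (x a) (x b)) (p : Fin n → Bool) (l : List (Fin n))
    (h : ∀ a ∈ l, ∀ b ∈ l, p a = true → p b = false → Far b a) :
    wl x l = wl x (l.filter p) * wl x (l.filter fun z => !p z) := by
  induction l with
  | nil => simp [wl_nil]
  | cons b l ih =>
    have ih' := ih fun a ha b' hb' => h a (List.mem_cons_of_mem _ ha) b' (List.mem_cons_of_mem _ hb')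
    by_cases hb : p b = true
    · rw [List.filter_cons_of_pos hb, List.filter_cons_of_neg (by simp [hb]), wl_cons, wl_cons, ih',
        mul_assoc]
    · have hb' : p b = false := by simpa using hb
      rw [List.filter_cons_of_neg hb, List.filter_cons_of_pos (by simp [hb']), wl_cons, wl_cons, ih',
        ← mul_assoc, ← mul_assoc]
      congr 1
      refine comm_list x hcom b _ fun a ha => ?_
      rw [List.mem_filter] at ha
      exact h a (List.mem_cons_of_mem _ ha.1) b List.mem_cons_self ha.2 hb'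

lemma transp (P : Fin n → X → Prop) (hfar : ∀ b j, Far b j → ∀ W, P j (x b W) ↔ P j W)
    (hin : ∀ (b : Fin n) (J : Set (Fin n)), b ∈ J → ∀ W, (∀ j ∈ J, P j (x b W)) ↔ ∀ j ∈ J, P j W)
    (J : Set (Fin n)) (l : List (Fin n)) (h : ∀ b ∈ l, b ∈ J ∨ ∀ j ∈ J, Far b j) (W : X) :
    (∀ j ∈ J, P j (wl x l W)) ↔ ∀ j ∈ J, P j W := by
  induction l with
  | nil => rw [wl_nil]; rfl
  | cons b l ih =>
    have ih' := ih fun b' hb' => h b' (List.mem_cons_of_mem _ hb')
    rw [wl_cons, Equiv.Perm.mul_apply]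
    rcases h b List.mem_cons_self with h1 | h1
    · rw [hin b J h1, ih']
    · rw [← ih']
      exact forall₂_congr fun j hj => hfar b j (h1 j hj) _

/-- the step: `a` does not occur in `c`, its neighbour `b` does -/
lemma step1 (P : Fin n → X → Prop) (hfar : ∀ b j, Far b j → ∀ W, P j (x b W) ↔ P j W)
    (hin : ∀ (b : Fin n) (J : Set (Fin n)), b ∈ J → ∀ W, (∀ j ∈ J, P j (x b W)) ↔ ∀ j ∈ J, P j W)
    (hcom : ∀ a b, Far a b → Commute (x a) (x b)) (Γ : Set (Equiv.Perm X)) (F : Filter X)
    (hgap : ∀ u v, Adj u v → ∀ g : Equiv.Perm X, g⁻¹ * (x u * x u) * g ∈ Γ → g⁻¹ * (x v * x v) * g ∈ Γ →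
      ∀ᶠ W in F, P u (g W) ∧ P v (g W))
    (c : List (Fin n)) (hc : ∀ (c1 c2 : List (Fin n)) (a : Fin n), c = c1 ++ a :: c2 →
      (wl x c2)⁻¹ * (x a * x a) * wl x c2 ∈ Γ)
    (ih : ∀ᶠ W in F, ∀ u v, Adj u v → u ∈ c → v ∈ c → P u (wl x c W) ∧ P v (wl x c W))
    (a b : Fin n) (hab : Adj a b) (ha : a ∉ c) (hb : b ∈ c)
    (hac : (wl x c)⁻¹ * (x a * x a) * wl x c ∈ Γ) :
    ∀ᶠ W in F, P a (wl x c W) ∧ P b (wl x c W) := by
  classical
  obtain ⟨s, hs, hsb⟩ : ∃ s : ℤ, (s = 1 ∨ s = -1) ∧ s * (((b : ℕ) : ℤ) - (a : ℕ)) = 1 := by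
    rcases hab with h | h
    · exact ⟨1, Or.inl rfl, by rw [h]; push_cast; ring⟩
    · exact ⟨-1, Or.inr rfl, by rw [h]; push_cast; ring⟩
  set pos : Fin n → ℤ := fun z => s * (((z : ℕ) : ℤ) - (a : ℕ)) with hpos
  have hFar : ∀ u v : Fin n, Far u v ↔ pos u + 2 ≤ pos v ∨ pos v + 2 ≤ pos u := by
    intro u v
    simp only [hpos, Far]
    rcases hs with rfl | rfl <;> omega
  have hAdj : ∀ u v : Fin n, pos v = pos u + 1 → Adj u v := by
    intro u v
    simp only [hpos, Adj]
    rcases hs with rfl | rfl <;> omega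
  have hinj : ∀ u v : Fin n, pos u = pos v → u = v := by
    intro u v h
    apply Fin.ext
    simp only [hpos] at h
    rcases hs with rfl | rfl <;> omega
  have hnb : ∀ (j : Fin n) (k : ℤ), 0 ≤ k → k ≤ pos j → ∃ z : Fin n, pos z = k := by
    intro j k h0 hk
    simp only [hpos] at hk ⊢
    have hj := j.2
    have ha' := a.2
    rcases hs with rfl | rfl
    · exact ⟨⟨(a : ℕ) + k.toNat, by omega⟩, by push_cast; omega⟩
    · exact ⟨⟨(a : ℕ) - k.toNat, by omega⟩, by
        have : k.toNat ≤ (a : ℕ) := by omega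
        push_cast [Nat.cast_sub this]
        omega⟩
  have hpa : pos a = 0 := by simp only [hpos]; ring
  have hpb : pos b = 1 := hsb
  obtain ⟨y, c2, hcy, hby⟩ := List.eq_append_cons_of_mem hb
  -- the two parts of `y`
  set p : Fin n → Bool := fun z => decide (2 ≤ pos z) with hp
  have hy : ∀ z ∈ y, 2 ≤ pos z ∨ pos z ≤ -1 := by
    intro z hz
    have h1 : z ≠ a := by
      rintro rfl
      exact ha (by rw [hcy]; exact List.mem_append_left _ hz)
    have h2 : z ≠ b := by
      rintro rfl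
      exact hby hz
    have h3 : pos z ≠ 0 := fun h => h1 (hinj _ _ (by rw [h, hpa]))
    have h4 : pos z ≠ 1 := fun h => h2 (hinj _ _ (by rw [h, hpb]))
    omega
  set y1 := y.filter p with hy1
  set y2 := y.filter fun z => !p z with hy2
  have hsplit : wl x y = wl x y1 * wl x y2 := by
    refine split_list x hcom p y fun u hu v hv h1 h2 => ?_
    simp only [hp, decide_eq_true_eq, decide_eq_false_iff_not, not_le] at h1 h2
    have h3 := hy v hv
    rw [hFar]
    left
    omega
  have hm1 : ∀ z ∈ y1, 2 ≤ pos z ∧ z ∈ c := by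
    intro z hz
    rw [hy1, List.mem_filter] at hz
    refine ⟨by simpa [hp] using hz.2, ?_⟩
    rw [hcy]
    exact List.mem_append_left _ hz.1
  have hm2 : ∀ z ∈ y2, pos z ≤ -1 := by
    intro z hz
    rw [hy2, List.mem_filter] at hz
    have h1 : ¬ 2 ≤ pos z := by simpa [hp] using hz.2
    have h2 := hy z hz.1
    omega
  set g : Equiv.Perm X := wl x y2 * x b * wl x c2 with hg
  have hwc : wl x c = wl x y1 * g := by
    rw [hcy, wl_append, wl_cons, hsplit, hg]
    group
  have hgb : g⁻¹ * (x b * x b) * g ∈ Γ := by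
    have h1 : g⁻¹ * (x b * x b) * g = (wl x c2)⁻¹ * (x b * x b) * wl x c2 := by
      have h2 : Commute (x b) (wl x y2) := comm_list x hcom b y2 fun z hz => by
        rw [hFar, hpb]
        have := hm2 z hz
        right
        omega
      have h3 : Commute (x b * x b) (wl x y2) := h2.mul_left h2
      rw [hg]
      have h4 : (x b * x b) * (wl x y2 * x b * wl x c2) = wl x y2 * x b * ((x b * x b) * wl x c2) := by
        rw [← mul_assoc, ← mul_assoc, h3.eq]
        group
      rw [mul_assoc, h4]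
      group
    rw [h1]
    exact hc y c2 b hcy
  have hga : g⁻¹ * (x a * x a) * g ∈ Γ := by
    have h2 : Commute (x a) (wl x y1) := comm_list x hcom a y1 fun z hz => by
      rw [hFar, hpa]
      have := (hm1 z hz).1
      left
      omega
    have h3 : Commute (x a * x a) (wl x y1) := h2.mul_left h2
    have h1 : g⁻¹ * (x a * x a) * g = (wl x c)⁻¹ * (x a * x a) * wl x c := by
      rw [hwc]
      have h4 : (x a * x a) * (wl x y1 * g) = wl x y1 * ((x a * x a) * g) := by
        rw [← mul_assoc, h3.eq, mul_assoc]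
      have h5 : (wl x y1 * g)⁻¹ * (x a * x a) * (wl x y1 * g) =
          (wl x y1 * g)⁻¹ * ((x a * x a) * (wl x y1 * g)) := mul_assoc _ _ _
      rw [h5, h4]
      group
    rw [h1]
    exact hac
  -- the interval
  set J : Set (Fin n) := {j | 0 ≤ pos j ∧ ∀ z : Fin n, 1 ≤ pos z → pos z ≤ pos j → z ∈ c} with hJ
  have haJ : a ∈ J := ⟨by rw [hpa], fun z h1 h2 => by rw [hpa] at h2; omega⟩
  have hbJ : b ∈ J := by
    refine ⟨by rw [hpb]; omega, fun z h1 h2 => ?_⟩
    have h3 : z = b := hinj _ _ (by rw [hpb] at h2 ⊢; omega)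
    rw [h3]
    exact hb
  have hy1J : ∀ z ∈ y1, z ∈ J ∨ ∀ j ∈ J, Far z j := by
    intro z hz
    obtain ⟨h1, h2⟩ := hm1 z hz
    by_cases hzJ : z ∈ J
    · exact Or.inl hzJ
    right
    intro j hj
    have h3 : ∃ w : Fin n, 1 ≤ pos w ∧ pos w ≤ pos z ∧ w ∉ c := by
      by_contra hcon
      push Not at hcon
      exact hzJ ⟨by omega, fun w h4 h5 => hcon w h4 h5⟩
    obtain ⟨w, h4, h5, h6⟩ := h3
    have h7 : pos w ≠ pos z := fun h => h6 (by rw [hinj _ _ h]; exact h2)
    have h8 : pos j < pos w := by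
      by_contra h9
      push Not at h9
      exact h6 (hj.2 w h4 h9)
    rw [hFar]
    right
    omega
  filter_upwards [ih, hgap a b hab g hga hgb] with W hW1 hW2
  have hwW : wl x c W = wl x y1 (g W) := by rw [hwc]; rfl
  have hgJ : ∀ j ∈ J, P j (g W) := by
    by_cases hex : ∃ j ∈ J, 2 ≤ pos j
    · obtain ⟨j0, hj0, hj0'⟩ := hex
      set J' : Set (Fin n) := {j | j ∈ J ∧ 1 ≤ pos j} with hJ'
      have hmemc : ∀ j ∈ J', j ∈ c := fun j hj => hj.1.2 j hj.2 le_rfl
      have hc' : ∀ j ∈ J', P j (wl x c W) := by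
        intro j hj
        by_cases h2 : 2 ≤ pos j
        · obtain ⟨z, hz⟩ := hnb j (pos j - 1) (by omega) (by omega)
          have hzc : z ∈ c := hj.1.2 z (by omega) (by omega)
          exact (hW1 z j (hAdj z j (by omega)) hzc (hmemc j hj)).2
        · have h3 : pos j = 1 := by have := hj.2; omega
          obtain ⟨z, hz⟩ := hnb j0 2 (by omega) (by omega)
          have hzc : z ∈ c := hj0.2 z (by omega) (by omega)
          exact (hW1 j z (hAdj j z (by omega)) (hmemc j hj) hzc).1
      rw [hwW] at hc'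
      have h4 := (transp x P hfar hin J' y1 (fun z hz => by
        rcases hy1J z hz with h | h
        · exact Or.inl ⟨h, by have := (hm1 z hz).1; omega⟩
        · exact Or.inr fun j hj => h j hj.1) (g W)).1 hc'
      intro j hj
      by_cases h5 : 1 ≤ pos j
      · exact h4 j ⟨hj, h5⟩
      · have h6 : j = a := hinj _ _ (by rw [hpa]; have := hj.1; omega)
        rw [h6]
        exact hW2.1
    · intro j hj
      push Not at hex
      have h1 := hex j hj
      have h2 := hj.1
      by_cases h3 : pos j = 0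
      · have h6 : j = a := hinj _ _ (by rw [hpa, h3])
        rw [h6]
        exact hW2.1
      · have h6 : j = b := hinj _ _ (by rw [hpb]; omega)
        rw [h6]
        exact hW2.2
  have h1 := (transp x P hfar hin J y1 hy1J (g W)).2 hgJ
  rw [← hwW] at h1
  exact ⟨h1 a haJ, h1 b hbJ⟩

theorem main (P : Fin n → X → Prop) (hfar : ∀ b j, Far b j → ∀ W, P j (x b W) ↔ P j W)
    (hin : ∀ (b : Fin n) (J : Set (Fin n)), b ∈ J → ∀ W, (∀ j ∈ J, P j (x b W)) ↔ ∀ j ∈ J, P j W)
    (hcom : ∀ a b, Far a b → Commute (x a) (x b)) (Γ : Set (Equiv.Perm X)) (F : Filter X)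
    (hgap : ∀ u v, Adj u v → ∀ g : Equiv.Perm X, g⁻¹ * (x u * x u) * g ∈ Γ → g⁻¹ * (x v * x v) * g ∈ Γ →
      ∀ᶠ W in F, P u (g W) ∧ P v (g W)) :
    ∀ c : List (Fin n), (∀ (c1 c2 : List (Fin n)) (a : Fin n), c = c1 ++ a :: c2 →
      (wl x c2)⁻¹ * (x a * x a) * wl x c2 ∈ Γ) →
      ∀ᶠ W in F, ∀ u v, Adj u v → u ∈ c → v ∈ c → P u (wl x c W) ∧ P v (wl x c W) := by
  intro c
  induction c with
  | nil => exact fun _ => Eventually.of_forall fun W u v _ hu _ => absurd hu List.not_mem_nil
  | cons a c ih =>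
    intro hc
    have hc' : ∀ (c1 c2 : List (Fin n)) (a : Fin n), c = c1 ++ a :: c2 →
        (wl x c2)⁻¹ * (x a * x a) * wl x c2 ∈ Γ := by
      intro c1 c2 b h
      exact hc (a :: c1) c2 b (by rw [h]; rfl)
    have ih' := ih hc'
    have hac := hc [] c a rfl
    have h2 : ∀ᶠ W in F, ∀ b, Adj a b → a ∉ c → b ∈ c → P a (wl x c W) ∧ P b (wl x c W) := by
      rw [eventually_all]
      intro b
      by_cases h : Adj a b ∧ a ∉ c ∧ b ∈ c
      · filter_upwards [step1 x P hfar hin hcom Γ F hgap c hc' ih' a b h.1 h.2.1 h.2.2 hac] with W hW _ _ _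
        exact hW
      · exact Eventually.of_forall fun W h1 h2 h3 => absurd ⟨h1, h2, h3⟩ h
    have hall : ∀ᶠ W in F, ∀ u v, Adj u v → u ∈ a :: c → v ∈ a :: c → P u (wl x c W) ∧ P v (wl x c W) := by
      filter_upwards [ih', h2] with W h3 h4 u v huv hu hv
      by_cases hu' : u ∈ c
      · by_cases hv' : v ∈ c
        · exact h3 u v huv hu' hv'
        · have hva : v = a := (List.mem_cons.1 hv).resolve_right hv'
          subst hva
          exact (h4 u huv.symm hv' hu').symm
      · have hua : u = a := (List.mem_cons.1 hu).resolve_right hu'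
        subst hua
        have hv' : v ∈ c := (List.mem_cons.1 hv).resolve_left fun h => by
          subst h
          rcases huv with h | h <;> omega
        exact h4 v huv hu' hv'
    filter_upwards [hall] with W h u v huv hu hv
    rw [wl_cons, Equiv.Perm.mul_apply]
    obtain ⟨h5, h6⟩ := h u v huv hu hv
    by_cases hfa : Far a u ∧ Far a v
    · exact ⟨(hfar a u hfa.1 _).2 h5, (hfar a v hfa.2 _).2 h6⟩
    · have hPa : P a (wl x c W) := by
        by_cases e1 : a = u
        · rw [e1]; exact h5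
        by_cases e2 : a = v
        · rw [e2]; exact h6
        have e1' : (a : ℕ) ≠ u := fun h => e1 (Fin.ext h)
        have e2' : (a : ℕ) ≠ v := fun h => e2 (Fin.ext h)
        by_cases h7 : Adj a u
        · exact (h a u h7 List.mem_cons_self hu).1
        · have h8 : Adj a v := by
            unfold Adj Far at *
            omega
          exact (h a v h8 List.mem_cons_self hv).1
      have h9 := (hin a {j | j = u ∨ j = v ∨ j = a} (Or.inr (Or.inr rfl)) (wl x c W)).2 (by
        rintro j (rfl | rfl | rfl)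
        · exact h5
        · exact h6
        · exact hPa)
      exact ⟨h9 u (Or.inl rfl), h9 v (Or.inr (Or.inl rfl))⟩

end Pool.Agent.J4H3.QT
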