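import Pool.Agent.J4H23.QT.Stm
import Pool.Agent.J4H3.QT.Core

/-!
# Project QT of helper23: (CMB)
-/

set_option autoImplicit false

namespace Pool.Agent.J4H3.QT

open Filter Pool.Agent.H891R2.Jones Pool.Agent.W639.RB Pool.Agent.W705.JR Pool.Agent.J4H23.QT

variable {m : ℕ}

lemma comm_e (i j : ℕ) (hi : i + 1 < m) (hj : j + 1 < m) (h : i + 2 ≤ j ∨ j + 2 ≤ i) :
    Commute (e m i) (e m j) := by
  rcases h with h | h
  · exact (e_TL m).far i j hj h
  · exact ((e_TL m).far j i hi h).symm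

lemma comm_sg_e (A : ℂ) (i j : ℕ) (hi : i + 1 < m) (hj : j + 1 < m) (h : i + 2 ≤ j ∨ j + 2 ≤ i) :
    Commute (sg A (e m) i) (e m j) := by
  unfold sg
  exact ((Commute.one_left _).smul_left _).add_left ((comm_e i j hi hj h).smul_left _)

lemma comm_sg (A B : ℂ) (i j : ℕ) (hi : i + 1 < m) (hj : j + 1 < m) (h : i + 2 ≤ j ∨ j + 2 ≤ i) :
    Commute (sg A (e m) i) (sg B (e m) j) := by
  conv_rhs => unfold sg
  exact ((Commute.one_right _).smul_right _).add_right ((comm_sg_e A i j hi hj h).smul_right _)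

lemma gg_far (y : Letter m) (j : ℕ) (hj : j + 1 < m) (h : (y.2 : ℕ) + 2 ≤ j ∨ j + 2 ≤ (y.2 : ℕ)) (v : VV m) :
    gg y (EE2 j v) = EE2 j (gg y v) := by
  refine Prod.ext ?_ ?_
  · have h1 := comm_sg_e (Bb y.1) y.2 j (idx_lt y) hj h
    exact LinearMap.congr_fun h1.eq v.1
  · show m2 y 0 = 0
    exact map_zero _

lemma P_far (y : Letter m) (j : ℕ) (hj : j + 1 < m) (h : (y.2 : ℕ) + 2 ≤ j ∨ j + 2 ≤ (y.2 : ℕ))
    (W : Submodule ℂ (VV m)) :
    (∀ v ∈ (act (gg y))⁻¹ W, EE2 j v ∈ (act (gg y))⁻¹ W) ↔ ∀ v ∈ W, EE2 j v ∈ W := by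
  constructor
  · intro h1 v hv
    have h2 := h1 ((gg y).symm v) (by rw [mem_act_inv]; simpa using hv)
    rw [mem_act_inv, gg_far y j hj h] at h2
    simpa using h2
  · intro h1 v hv
    rw [mem_act_inv] at hv ⊢
    rw [gg_far y j hj h]
    exact h1 _ hv

lemma xx_eq (b : Fin (m - 1)) : xx b = (act (gg ((false, b) : Letter m)))⁻¹ := by
  have h1 : gg ((false, b) : Letter m) = (gg ((true, b) : Letter m)).symm := gg_inv' (true, b)
  rw [h1, act_symm, inv_inv]
  rfl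

lemma cst2_far (y z : Letter m) (h : (y.2 : ℕ) + 2 ≤ z.2 ∨ (z.2 : ℕ) + 2 ≤ y.2) (U : Fin m → Bool) :
    cst2 z (U ∘ sw y) = cst2 z U := by
  unfold cst2 sw
  rw [pat_swap U y.2 (idx_lt y)]
  simp only [Function.comp_apply]
  rw [Equiv.swap_apply_of_ne_of_ne (by omega) (by omega), Equiv.swap_apply_of_ne_of_ne (by omega) (by omega)]

lemma sw_comm (y z : Letter m) (h : (y.2 : ℕ) + 2 ≤ z.2 ∨ (z.2 : ℕ) + 2 ≤ y.2) (U : Fin m → Bool) :
    (U ∘ sw y) ∘ sw z = (U ∘ sw z) ∘ sw y := by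
  have h1 : Equiv.Perm.Disjoint (sw y) (sw z) := by
    unfold sw
    refine Equiv.Perm.disjoint_swap_swap ?_
    simp only [List.nodup_cons, List.mem_cons, List.not_mem_nil, or_false, not_or, Fin.mk.injEq,
      not_false_eq_true, List.nodup_nil, and_true]
    omega
  funext k
  have h2 := Equiv.Perm.congr_fun h1.commute.eq k
  simp only [Equiv.Perm.mul_apply] at h2
  simp only [Function.comp_apply]
  rw [h2]

lemma gg_comm (y z : Letter m) (h : (y.2 : ℕ) + 2 ≤ z.2 ∨ (z.2 : ℕ) + 2 ≤ y.2) :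
    gg y * gg z = gg z * gg y := by
  apply LinearEquiv.ext
  intro v
  show gg y (gg z v) = gg z (gg y v)
  rw [gg_apply, gg_apply, gg_apply z, gg_apply y]
  refine Prod.ext ?_ ?_
  · exact LinearMap.congr_fun (comm_sg (Bb y.1) (Bb z.1) y.2 z.2 (idx_lt y) (idx_lt z) h).eq v.1
  · funext U
    show m2 y (m2 z v.2) U = m2 z (m2 y v.2) U
    rw [m2_apply, m2_apply, m2_apply, m2_apply, cst2_far y z h, cst2_far z y h.symm, sw_comm y z h]
    ring

lemma xx_comm (a b : Fin (m - 1)) (h : Far a b) : Commute (xx a) (xx b) := by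
  show act (gg (true, a)) * act (gg (true, b)) = act (gg (true, b)) * act (gg (true, a))
  have h1 := gg_comm ((true, a) : Letter m) (true, b) h
  have h2 := congrArg (actH (VV m)) h1
  rw [map_mul, map_mul] at h2
  exact h2

theorem t_CMB : S_CMB := by
  intro m Γ I hI0 hI1 hI2 hgap c hc i h hic hic'
  set P : Fin (m - 1) → Submodule ℂ (VV m) → Prop := fun j W => ∀ v ∈ W, EE2 (j : ℕ) v ∈ W with hP
  set F : Filter (Submodule ℂ (VV m)) :=
    { sets := {S | Sᶜ ∈ I}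
      univ_sets := by
        show (Set.univ : Set (Submodule ℂ (VV m)))ᶜ ∈ I
        rw [Set.compl_univ]
        exact hI0
      sets_of_superset := fun {S T} hS hST => hI1 _ hS _ (Set.compl_subset_compl.2 hST)
      inter_sets := fun {S T} hS hT => by
        show (S ∩ T)ᶜ ∈ I
        rw [Set.compl_inter]
        exact hI2 _ hS _ hT } with hF
  have hmemF : ∀ Q : Submodule ℂ (VV m) → Prop, (∀ᶠ W in F, Q W) ↔ {W | ¬ Q W} ∈ I := fun Q => Iff.rfl
  have hlt : ∀ j : Fin (m - 1), (j : ℕ) + 1 < m := fun j => by have := j.2; omega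
  have hgood : ∀ (u v : Fin (m - 1)), (v : ℕ) = u + 1 → ∀ W : Submodule ℂ (VV m),
      W ∈ good (m := m) (u : ℕ) ↔ ¬ (P u W ∧ P v W) := by
    intro u v huv W
    show (¬ Stab {(u : ℕ), (u : ℕ) + 1} W) ↔ _
    rw [not_iff_not]
    constructor
    · intro h1
      refine ⟨h1 u (by simp) (hlt u), ?_⟩
      have h2 := h1 (v : ℕ) (by simp [huv]) (hlt v)
      exact h2
    · rintro ⟨h1, h2⟩ j hj _
      simp only [Set.mem_insert_iff, Set.mem_singleton_iff] at hj
      rcases hj with rfl | rfl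
      · exact h1
      · rw [← huv]
        exact h2
  have key := main (fun a : Fin (m - 1) => xx (m := m) a) P ?_ ?_ ?_ Γ F ?_ c hc
  · rw [hmemF] at key
    refine hI1 _ key _ fun W hW hcon => ?_
    have h1 := hcon ⟨i, by omega⟩ ⟨i + 1, by omega⟩ (Or.inl rfl) hic hic'
    exact (hgood ⟨i, by omega⟩ ⟨i + 1, by omega⟩ rfl _).1 hW h1
  · intro b j hbj W
    show (∀ v ∈ xx b W, EE2 (j : ℕ) v ∈ xx b W) ↔ _
    rw [xx_eq]
    exact P_far (false, b) j (hlt j) hbj W
  · intro b J hb W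
    have hS : ∀ W : Submodule ℂ (VV m), Stab (Fin.val '' J) W ↔ ∀ j ∈ J, P j W := by
      intro W
      constructor
      · intro h1 j hj
        exact h1 j ⟨j, hj, rfl⟩ (hlt j)
      · rintro h1 _ ⟨j, hj, rfl⟩ _
        exact h1 j hj
    rw [← hS, ← hS]
    show Stab _ (xx b W) ↔ _
    rw [xx_eq]
    exact Stab_act_iff (Fin.val '' J) ((false, b) : Letter m) ⟨b, hb, rfl⟩ W
  · intro a b hab
    exact xx_comm a b hab
  · have hg : ∀ u v : Fin (m - 1), (v : ℕ) = u + 1 → ∀ g : Equiv.Perm (Submodule ℂ (VV m)),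
        g⁻¹ * (xx u * xx u) * g ∈ Γ → g⁻¹ * (xx v * xx v) * g ∈ Γ → ∀ᶠ W in F, P u (g W) ∧ P v (g W) := by
      intro u v huv g h1 h2
      rw [hmemF]
      have hv := v.2
      have h3 := hgap u (by omega) g h1 (by
        have : (⟨(u : ℕ) + 1, by omega⟩ : Fin (m - 1)) = v := Fin.ext huv.symm
        rw [this]
        exact h2)
      refine hI1 _ h3 _ fun W hW => ?_
      exact (hgood u v huv _).2 hW
    intro u v huv g h1 h2
    rcases huv with h | h
    · exact hg u v h g h1 h2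
    · exact (hg v u h g h2 h1).mono fun W hW => hW.symm

end Pool.Agent.J4H3.QT
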