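import Pool.Agent.J4H3.QT.Cmb

/-!
# Project QT of helper23: (PAT)
-/

set_option autoImplicit false

namespace Pool.Agent.J4H3.QT

open Filter Topology Pool.Agent.H891R2.Jones Pool.Agent.W639.RB Pool.Agent.W705.JR Pool.Agent.J4H23.QT

lemma sh_smul {X : Type*} (σ : Equiv.Perm X) (a : ℝ) (f : L2 X) : sh σ (a • f) = a • sh σ f := by
  ext x
  simp

lemma avg_smul {X ι : Type*} [Fintype ι] (p : ι → ℝ) (σ : ι → Equiv.Perm X) (a : ℝ) (f : L2 X) :
    avg p σ (a • f) = a • avg p σ f := by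
  unfold avg
  rw [Finset.smul_sum]
  refine Finset.sum_congr rfl fun l _ => ?_
  rw [sh_smul, smul_comm]

lemma opr_smul {X ι : Type} [Fintype ι] (σ : ι → Equiv.Perm X) (P : List (ι → ℝ)) (a : ℝ) (f : L2 X) :
    opr σ P (a • f) = a • opr σ P f := by
  induction P with
  | nil => rfl
  | cons p P ih => simp only [opr, ih, avg_smul]

lemma avg_le {X ι : Type*} [Fintype ι] (p : ι → ℝ) (hp0 : ∀ l, 0 ≤ p l) (hp1 : ∑ l, p l = 1)
    (σ : ι → Equiv.Perm X) (f : L2 X) : ‖avg p σ f‖ ≤ ‖f‖ := by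
  unfold avg
  calc ‖∑ l, p l • sh (σ l) f‖ ≤ ∑ l, ‖p l • sh (σ l) f‖ := norm_sum_le _ _
    _ = ∑ l, p l * ‖f‖ := by
        refine Finset.sum_congr rfl fun l _ => ?_
        rw [norm_smul, Real.norm_eq_abs, abs_of_nonneg (hp0 l), sh_norm]
    _ = ‖f‖ := by rw [← Finset.sum_mul, hp1, one_mul]

lemma isP_lp {m : ℕ} (j : Fin (m - 1)) (t : ℝ) (h0 : 0 ≤ t) (h1 : t ≤ 1) : IsP (lp (m := m) j t) := by
  constructor
  · intro l
    unfold Pool.Agent.J4H23.QT.lp
    split_ifs <;> linarith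
  · unfold Pool.Agent.J4H23.QT.lp
    rw [Fintype.sum_prod_type, Fintype.sum_bool]
    simp

lemma zip_le {m : ℕ} {X : Type} (σ : Letter m → Equiv.Perm X) (f : L2 X) :
    ∀ (c : List (Fin (m - 1))) (T : List ℝ), (∀ t ∈ T, 0 ≤ t ∧ t ≤ 1) →
      ‖opr σ (List.zipWith lp c T) f‖ ≤ ‖f‖ := by
  intro c
  induction c with
  | nil => intro T _; simp [opr]
  | cons a c ih =>
    intro T hT
    cases T with
    | nil => simp [opr]
    | cons t T =>
      simp only [List.zipWith_cons_cons, opr]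
      have h1 := isP_lp a t (hT t List.mem_cons_self).1 (hT t List.mem_cons_self).2
      exact (avg_le _ h1.1 h1.2 σ _).trans (ih T fun t' ht' => hT t' (List.mem_cons_of_mem _ ht'))

lemma res_res {X : Type*} (S T : Set X) (h : T ⊆ S) (f : L2 X) : res T (res S f) = res T f := by
  classical
  ext x
  simp only [res_apply]
  by_cases hx : x ∈ T
  · rw [if_pos hx, if_pos (h hx), if_pos hx]
  · rw [if_neg hx, if_neg hx]

lemma res_mono {X : Type*} (S T : Set X) (h : T ⊆ S) (f : L2 X) : ‖res T f‖ ≤ ‖res S f‖ := by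
  rw [← res_res S T h f]
  exact res_norm_le _ _

lemma act_sq {m : ℕ} (i : ℕ) (h : i + 1 < m) :
    act (sq (m := m) i h) = xx (m := m) ⟨i, by omega⟩ * xx ⟨i, by omega⟩ := by
  unfold Pool.Agent.J4H23.QT.sq
  rw [← actH_apply, map_mul]
  rfl

lemma stab_wd {m : ℕ} (c : List (Fin (m - 1))) (W : Submodule ℂ (VV m)) :
    Stab Set.univ ((wd c : Equiv.Perm (Submodule ℂ (VV m))) W) ↔ Stab Set.univ W := by
  induction c with
  | nil => rfl
  | cons a c ih =>
    have h1 : (wd (a :: c) : Equiv.Perm (Submodule ℂ (VV m))) W = xx a ((wd c : Equiv.Perm (Submodule ℂ (VV m))) W) := by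
      unfold wd
      rw [List.map_cons, List.prod_cons]
      rfl
    rw [h1, ← ih, xx_eq]
    exact Stab_act_iff Set.univ ((false, a) : Letter m) (Set.mem_univ _) _

lemma good_cov {m : ℕ} (hm : 3 ≤ m) (W : Submodule ℂ (VV m)) (hW : ¬ Stab Set.univ W) :
    ∃ i : Fin (m - 2), W ∈ good (m := m) (i : ℕ) := by
  by_contra hcon
  push Not at hcon
  apply hW
  intro j _ hjm v hv
  by_cases hj : j + 2 < m
  · have h2 := hcon ⟨j, by omega⟩
    unfold good at h2
    rw [Set.mem_ofPred_eq, not_not] at h2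
    exact h2 j (by simp) hjm v hv
  · have h2 := hcon ⟨j - 1, by omega⟩
    unfold good at h2
    rw [Set.mem_ofPred_eq, not_not] at h2
    exact h2 j (by
      have : j = (j - 1) + 1 := by omega
      right; exact this) hjm v hv

theorem t_PAT : S_GAPF → S_SEQ → S_CMB → S_PAT := by
  intro hG hS hC m ε hm hε c hall
  by_contra hcon
  push Not at hcon
  have h0 : ∀ k : ℕ, ∃ (T : List ℝ) (f : L2 (Submodule ℂ (VV m))), T.length = c.length ∧
      (∀ t ∈ T, ε ≤ t ∧ t ≤ 1 - ε) ∧ (∀ W, Stab Set.univ W → f W = 0) ∧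
      (1 - 1 / ((k : ℝ) + 2)) * ‖f‖ < ‖opr (fun l : Letter m => act (gg l)) (List.zipWith lp c T) f‖ := by
    intro k
    have h1 : (0 : ℝ) < 1 / ((k : ℝ) + 2) := by positivity
    have h2 : 1 / ((k : ℝ) + 2) ≤ 1 := by
      rw [div_le_one (by positivity)]
      have : (0 : ℝ) ≤ k := Nat.cast_nonneg k
      linarith
    obtain ⟨T, h3, h4, f, h5, h6⟩ := hcon (1 - 1 / ((k : ℝ) + 2)) (by linarith) (by linarith)
    exact ⟨T, f, h3, h4, h5, h6⟩
  choose T f hT1 hT2 hf1 hf2 using h0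
  have hT01 : ∀ k, ∀ t ∈ T k, 0 ≤ t ∧ t ≤ 1 := fun k t ht => by
    obtain ⟨h1, h2⟩ := hT2 k t ht
    constructor <;> linarith
  have hfpos : ∀ k, 0 < ‖f k‖ := by
    intro k
    by_contra h1
    have h2 : ‖f k‖ = 0 := le_antisymm (not_lt.1 h1) (norm_nonneg _)
    have h3 := zip_le (fun l : Letter m => act (gg l)) (f k) c (T k) (hT01 k)
    have h4 := hf2 k
    rw [h2, mul_zero] at h4
    rw [h2] at h3
    linarith
  set F : ℕ → L2 (Submodule ℂ (VV m)) := fun k => (‖f k‖)⁻¹ • f k with hF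
  have hF1 : ∀ k, ‖F k‖ = 1 := by
    intro k
    simp only [hF]
    rw [norm_smul, norm_inv, norm_norm, inv_mul_cancel₀ (hfpos k).ne']
  have hFs : ∀ k W, Stab Set.univ W → F k W = 0 := by
    intro k W hW
    simp only [hF]
    rw [lp.coeFn_smul, Pi.smul_apply, hf1 k W hW, smul_zero]
  have hlow : ∀ k : ℕ, 1 - 1 / ((k : ℝ) + 2) ≤
      ‖opr (fun l : Letter m => act (gg l)) (List.zipWith lp c (T k)) (F k)‖ := by
    intro k
    simp only [hF]
    rw [opr_smul, norm_smul, norm_inv, norm_norm, ← div_eq_inv_mul, le_div_iff₀ (hfpos k)]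
    exact (hf2 k).le
  have hup : ∀ k : ℕ, ‖opr (fun l : Letter m => act (gg l)) (List.zipWith lp c (T k)) (F k)‖ ≤ 1 := by
    intro k
    rw [← hF1 k]
    exact zip_le _ _ _ _ (hT01 k)
  have hlim : Tendsto (fun k => ‖opr (fun l : Letter m => act (gg l)) (List.zipWith lp c (T k)) (F k)‖)
      atTop (𝓝 1) := by
    have h1 : Tendsto (fun k : ℕ => 1 - 1 / ((k : ℝ) + 2)) atTop (𝓝 1) := by
      have h2 : Tendsto (fun k : ℕ => 1 / ((k : ℝ) + 2)) atTop (𝓝 0) := by
        have h3 := (tendsto_one_div_add_atTop_nhds_zero_nat (𝕜 := ℝ)).comp (tendsto_add_atTop_nat 1)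
        refine h3.congr fun k => ?_
        simp only [Function.comp_apply]
        push_cast
        ring_nf
      simpa using tendsto_const_nhds.sub h2
    exact tendsto_of_tendsto_of_tendsto_of_le_of_le h1 tendsto_const_nhds hlow hup
  obtain ⟨-, hseq⟩ := hS m ε hε c T F hT1 hT2 hF1 hlim
  set Γ : Set (Equiv.Perm (Submodule ℂ (VV m))) :=
    {σ | Tendsto (fun n => ‖F n - sh σ (F n)‖) atTop (𝓝 0)} with hΓ
  set I : Set (Set (Submodule ℂ (VV m))) := {S | Tendsto (fun n => ‖res S (F n)‖) atTop (𝓝 0)} with hI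
  have hI0 : ∅ ∈ I := by
    show Tendsto (fun n => ‖res ∅ (F n)‖) atTop (𝓝 0)
    have h1 : ∀ n, ‖res (∅ : Set (Submodule ℂ (VV m))) (F n)‖ = 0 := by
      intro n
      rw [norm_eq_zero]
      ext x
      simp
    simp only [h1]
    exact tendsto_const_nhds
  have hI1 : ∀ S ∈ I, ∀ T ⊆ S, T ∈ I := by
    intro S hS' T' hT'
    exact squeeze_zero (fun n => norm_nonneg _) (fun n => res_mono S T' hT' (F n)) hS'
  have hI2 : ∀ S ∈ I, ∀ T ∈ I, S ∪ T ∈ I := by
    intro S hS' T' hT'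
    have h1 : ∀ n, ‖res (S ∪ T') (F n)‖ ≤ ‖res S (F n)‖ + ‖res T' (F n)‖ := by
      intro n
      have h2 := norm_le_two S T' (res (S ∪ T') (F n)) (fun x hx => by
        classical
        rw [res_apply] at hx
        by_contra h3
        exact hx (if_neg h3))
      rw [res_res _ _ Set.subset_union_left, res_res _ _ Set.subset_union_right] at h2
      have h3 := norm_nonneg (res S (F n))
      have h4 := norm_nonneg (res T' (F n))
      refine abs_le_of_sq_le_sq' ?_ (by positivity) |>.2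
      nlinarith [mul_nonneg h3 h4]
    have h2 := Tendsto.add (show Tendsto _ _ _ from hS') (show Tendsto _ _ _ from hT')
    rw [add_zero] at h2
    exact squeeze_zero (fun n => norm_nonneg _) h1 h2
  have hgap : ∀ (i : ℕ) (h : i + 2 < m) (g : Equiv.Perm (Submodule ℂ (VV m))),
      g⁻¹ * (xx (m := m) ⟨i, by omega⟩ * xx ⟨i, by omega⟩) * g ∈ Γ →
      g⁻¹ * (xx (m := m) ⟨i+1, by omega⟩ * xx ⟨i+1, by omega⟩) * g ∈ Γ → {W | g W ∈ good i} ∈ I := by
    intro i h g h1 h2
    obtain ⟨κ, hκ, hκ1⟩ := hG m i h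
    have hnorm : ∀ n, ‖res {W | g W ∈ good (m := m) i} (F n)‖ = ‖res (good (m := m) i) (sh g (F n))‖ := by
      intro n
      have h3 : g '' {W | g W ∈ good (m := m) i} = good (m := m) i := by
        ext W
        constructor
        · rintro ⟨V, hV, rfl⟩
          exact hV
        · intro hW
          exact ⟨g⁻¹ W, by simpa using hW, by simp⟩
      have h4 := res_sh g {W | g W ∈ good (m := m) i} (F n)
      rw [h3] at h4
      rw [h4, sh_norm]
    have hinv : ∀ (j : ℕ) (hj : j + 1 < m), j = i ∨ j = i + 1 → ∀ n,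
        ‖res (good (m := m) i) (sh g (F n)) - sh (act (sq j hj)) (res (good (m := m) i) (sh g (F n)))‖ ≤
          ‖F n - sh (g⁻¹ * (xx (m := m) ⟨j, by omega⟩ * xx ⟨j, by omega⟩) * g) (F n)‖ := by
      intro j hj hji n
      have hga : ∀ W : Submodule ℂ (VV m), xx (m := m) ⟨j, by omega⟩ W ∈ good (m := m) i ↔ W ∈ good (m := m) i :=
        fun W => good_act i (true, ⟨j, by omega⟩) hji W
      refine (res_inv (act (sq j hj)) (good (m := m) i) (fun W => ?_) (sh g (F n))).trans (le_of_eq ?_)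
      · rw [act_sq, Equiv.Perm.mul_apply, hga, hga]
      · rw [act_sq, ← sh_norm g⁻¹, sh_sub, ← sh_mul, ← sh_mul, ← sh_mul, inv_mul_cancel, sh_one, mul_assoc]
    have h5 : ∀ n, ‖res {W | g W ∈ good (m := m) i} (F n)‖ ≤ κ⁻¹ *
        (‖F n - sh (g⁻¹ * (xx (m := m) ⟨i, by omega⟩ * xx ⟨i, by omega⟩) * g) (F n)‖ +
          ‖F n - sh (g⁻¹ * (xx (m := m) ⟨i+1, by omega⟩ * xx ⟨i+1, by omega⟩) * g) (F n)‖) := by
      intro n
      have h6 := hκ1 (res (good (m := m) i) (sh g (F n))) (fun W hW => by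
        classical
        rw [res_apply, if_neg hW])
      have h7 := hinv i (by omega) (Or.inl rfl) n
      have h8 := hinv (i+1) (by omega) (Or.inr rfl) n
      rw [← hnorm n] at h6
      have h9 := norm_nonneg (F n - sh (g⁻¹ * (xx (m := m) ⟨i, by omega⟩ * xx ⟨i, by omega⟩) * g) (F n))
      have h10 := norm_nonneg (F n - sh (g⁻¹ * (xx (m := m) ⟨i+1, by omega⟩ * xx ⟨i+1, by omega⟩) * g) (F n))
      rw [← div_eq_inv_mul, le_div_iff₀ hκ, mul_comm]
      rcases h6 with h6 | h6 <;> linarith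
    have h6 : Tendsto (fun n => κ⁻¹ *
        (‖F n - sh (g⁻¹ * (xx (m := m) ⟨i, by omega⟩ * xx ⟨i, by omega⟩) * g) (F n)‖ +
          ‖F n - sh (g⁻¹ * (xx (m := m) ⟨i+1, by omega⟩ * xx ⟨i+1, by omega⟩) * g) (F n)‖)) atTop (𝓝 0) := by
      have h7 := (Tendsto.add (show Tendsto _ _ _ from h1) (show Tendsto _ _ _ from h2)).const_mul κ⁻¹
      rw [add_zero, mul_zero] at h7
      exact h7
    exact squeeze_zero (fun n => norm_nonneg _) h5 h6
  have hcmb := hC m Γ I hI0 hI1 hI2 hgap c (fun c1 c2 a h => hseq c1 c2 a h)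
  have hfin : ∀ i : Fin (m - 2), Tendsto (fun n => ‖res {W | (wd c : Equiv.Perm (Submodule ℂ (VV m))) W ∈
      good (m := m) (i : ℕ)} (F n)‖) atTop (𝓝 0) :=
    fun i => hcmb i (by omega) (hall _) (hall _)
  have hle : ∀ n, ‖F n‖ ^ 2 ≤ ∑ i : Fin (m - 2), ‖res {W | (wd c : Equiv.Perm (Submodule ℂ (VV m))) W ∈
      good (m := m) (i : ℕ)} (F n)‖ ^ 2 := by
    intro n
    refine norm_le_sum (fun i : Fin (m - 2) => {W | (wd c : Equiv.Perm (Submodule ℂ (VV m))) W ∈
      good (m := m) (i : ℕ)}) (F n) fun W hW => ?_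
    have h1 : ¬ Stab Set.univ ((wd c : Equiv.Perm (Submodule ℂ (VV m))) W) := by
      rw [stab_wd]
      intro h
      exact hW (hFs n W h)
    exact good_cov hm _ h1
  have hsum : Tendsto (fun n => ∑ i : Fin (m - 2), ‖res {W | (wd c : Equiv.Perm (Submodule ℂ (VV m))) W ∈
      good (m := m) (i : ℕ)} (F n)‖ ^ 2) atTop (𝓝 0) := by
    have h1 := tendsto_finsetSum (Finset.univ : Finset (Fin (m - 2))) fun i _ => (hfin i).pow 2
    simpa using h1
  have h1 : (1 : ℝ) ≤ 0 := by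
    refine ge_of_tendsto' hsum fun n => ?_
    have := hle n
    rw [hF1 n] at this
    linarith
  linarith

end Pool.Agent.J4H3.QT
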